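import Mathlib

/-!
# A finitely generated soluble group which is not finitely invariably generated

Let `V` be the direct sum of copies of the field with three elements indexed by the integers, let
`t` be the shift and let `a` be the diagonal operator whose `n`-th entry is `-1` when `n` is a power
of four and `1` otherwise. Let `G` be the group of automorphisms of `V × V` generated by

* `x : (u, v) ↦ (a u, v)`,
* `y : (u, v) ↦ (t u + v, v)`.

It is two-generated and soluble of derived length at most three. For a fixed `v` the group `G` acts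
on the fibre `V × {v}` by affine maps.

Let `e j` be the basis vector with index `2 * 4 ^ j`. We show:

* for `v = e i - e j` with `i < j` the action of `G` on the fibre over `v` is transitive;
* for each `g` in `G` there is a colouring of the natural numbers by finitely many colours such
  that `g` has a fixed point in the fibre over `e i - e j` whenever `i` and `j` have the same
  colour. (If the exponent `k` of `y` in `g` is nonzero, then the linear part of `g` is
  `h : v_n ↦ ± v_(n+k)` and `V / (1 - h) V` is finite; if `k = 0` then `g` fixes `(0, e j)` for all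
  large `j`.)

Given a finite subset `S` of `G`, the pigeonhole principle gives `i < j` of the same colour for all
members of `S`. So each member of `S` is conjugate into the stabiliser of `(0, e i - e j)`, a proper
subgroup.
-/

set_option autoImplicit false
set_option linter.unusedVariables false

namespace Pool.Agent.Work.MP_98fcd2_al

/-- The module `⊕_{n ∈ ℤ} F₃`. -/
abbrev V := ℤ →₀ ZMod 3
/-- Pairs of vectors. -/
abbrev W := V × V
/-- The general linear group of `V × V`. -/
abbrev E := W ≃ₗ[ZMod 3] W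

/-- Powers of four. -/
def P (n : ℤ) : Prop := ∃ k : ℕ, n = 4 ^ k

open Classical in
/-- The sign sequence: `-1` exactly at the powers of four. -/
noncomputable def ep (n : ℤ) : ZMod 3 := if P n then -1 else 1

lemma ep_sq (n : ℤ) : ep n * ep n = 1 := by
  unfold ep; split_ifs <;> decide

lemma ep_of_not {n : ℤ} (h : ¬ P n) : ep n = 1 := by
  unfold ep; simp [h]

lemma ep_of {n : ℤ} (h : P n) : ep n = -1 := by
  unfold ep; simp [h]

/-- The diagonal operator. -/
noncomputable def aL : V →ₗ[ZMod 3] V :=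
  Finsupp.lsum (ZMod 3) (fun n => (ep n) • Finsupp.lsingle n)

lemma aL_single (n : ℤ) (c : ZMod 3) : aL (Finsupp.single n c) = Finsupp.single n (ep n * c) := by
  simp [aL]

lemma aL_apply (f : V) (n : ℤ) : aL f n = ep n * f n := by
  induction f using Finsupp.induction_linear with
  | zero => simp
  | add f g hf hg => simp [hf, hg, mul_add]
  | single m c =>
    rw [aL_single]
    by_cases h : m = n
    · subst h; simp
    · simp [h]

lemma aL_aL (f : V) : aL (aL f) = f := by
  ext n
  rw [aL_apply, aL_apply, ← mul_assoc, ep_sq, one_mul]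

/-- The shift. -/
noncomputable def tL : V ≃ₗ[ZMod 3] V := Finsupp.domLCongr (Equiv.addRight (1 : ℤ))

lemma tL_single (n : ℤ) (c : ZMod 3) : tL (Finsupp.single n c) = Finsupp.single (n + 1) c := by
  simp [tL]

lemma tL_symm_single (n : ℤ) (c : ZMod 3) :
    tL.symm (Finsupp.single n c) = Finsupp.single (n - 1) c := by
  rw [LinearEquiv.symm_apply_eq, tL_single]; simp

lemma tL_apply (f : V) (n : ℤ) : tL f n = f (n - 1) := by
  induction f using Finsupp.induction_linear with
  | zero => simp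
  | add f g hf hg => simp [hf, hg]
  | single m c =>
    rw [tL_single]
    by_cases h : m + 1 = n
    · subst h; simp
    · rw [Finsupp.single_apply, Finsupp.single_apply, if_neg h, if_neg (by omega)]

lemma tL_symm_apply (f : V) (n : ℤ) : tL.symm f n = f (n + 1) := by
  have := tL_apply (tL.symm f) (n + 1)
  rw [LinearEquiv.apply_symm_apply] at this
  rw [this]; simp

/-- First generator: `(u, v) ↦ (a u, v)`. -/
noncomputable def x : E where
  toFun w := (aL w.1, w.2)
  map_add' w w' := by simp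
  map_smul' c w := by simp
  invFun w := (aL w.1, w.2)
  left_inv w := by simp [aL_aL]
  right_inv w := by simp [aL_aL]

/-- Second generator: `(u, v) ↦ (t u + v, v)`. -/
noncomputable def y : E where
  toFun w := (tL w.1 + w.2, w.2)
  map_add' w w' := by simp; abel
  map_smul' c w := by simp
  invFun w := (tL.symm (w.1 - w.2), w.2)
  left_inv w := by simp
  right_inv w := by simp

lemma x_apply' (w : W) : x w = (aL w.1, w.2) := rfl
lemma x_inv_apply' (w : W) : x⁻¹ w = (aL w.1, w.2) := rfl
lemma y_apply' (w : W) : y w = (tL w.1 + w.2, w.2) := rfl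
lemma y_inv_apply' (w : W) : y⁻¹ w = (tL.symm (w.1 - w.2), w.2) := rfl

/-- The group generated by `x` and `y`. -/
noncomputable def G : Subgroup E := Subgroup.closure {x, y}

/-- Monomial affine elements. -/
def Mono (g : E) (k : ℤ) (b : ℤ → ZMod 3) : Prop :=
  (∀ n, b n * b n = 1) ∧
  (∀ n c, g (Finsupp.single n c, 0) = (Finsupp.single (n + k) (b n * c), 0)) ∧
  (∀ w, (g w).2 = w.2)

lemma Mono.one : Mono 1 0 (fun _ => 1) := by
  refine ⟨fun n => by simp, fun n c => by simp, fun w => rfl⟩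

lemma Mono.mul {f g : E} {k l : ℤ} {b c : ℤ → ZMod 3} (hf : Mono f k b) (hg : Mono g l c) :
    Mono (f * g) (l + k) (fun n => b (n + l) * c n) := by
  obtain ⟨hf1, hf2, hf3⟩ := hf
  obtain ⟨hg1, hg2, hg3⟩ := hg
  refine ⟨fun n => ?_, fun n d => ?_, fun w => ?_⟩
  · have h1 := hf1 (n + l)
    have h2 := hg1 n
    calc b (n + l) * c n * (b (n + l) * c n)
        = (b (n + l) * b (n + l)) * (c n * c n) := by ring
      _ = 1 := by rw [h1, h2, one_mul]
  · rw [LinearEquiv.mul_apply, hg2, hf2, mul_assoc, add_assoc]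
  · rw [LinearEquiv.mul_apply, hf3, hg3]

lemma Mono.inv {f : E} {k : ℤ} {b : ℤ → ZMod 3} (hf : Mono f k b) :
    Mono f⁻¹ (-k) (fun n => b (n - k)) := by
  obtain ⟨hf1, hf2, hf3⟩ := hf
  refine ⟨fun n => hf1 _, fun n d => ?_, fun w => ?_⟩
  · have h := hf2 (n - k) (b (n - k) * d)
    rw [← mul_assoc, hf1, one_mul, sub_add_cancel] at h
    rw [← h]
    show f.symm (f _) = _
    rw [LinearEquiv.symm_apply_apply]
    simp [sub_eq_add_neg]
  · have h := hf3 (f⁻¹ w)
    have h2 : f (f⁻¹ w) = w := LinearEquiv.apply_symm_apply f w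
    rw [h2] at h
    exact h.symm

lemma Mono.x : Mono x 0 ep := by
  refine ⟨ep_sq, fun n c => ?_, fun w => rfl⟩
  rw [x_apply']; simp [aL_single]

lemma Mono.y : Mono y 1 (fun _ => 1) := by
  refine ⟨fun n => by simp, fun n c => ?_, fun w => rfl⟩
  rw [y_apply']; simp [tL_single]


/-- Subgroup of monomial affine elements. -/
def T0 : Subgroup E where
  carrier := {g | ∃ k b, Mono g k b}
  one_mem' := ⟨_, _, Mono.one⟩
  mul_mem' := fun {f g} ⟨k, b, hf⟩ ⟨l, c, hg⟩ => ⟨_, _, hf.mul hg⟩
  inv_mem' := fun {f} ⟨k, b, hf⟩ => ⟨_, _, hf.inv⟩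

/-- Subgroup of diagonal affine elements. -/
def T1 : Subgroup E where
  carrier := {g | ∃ b, Mono g 0 b}
  one_mem' := ⟨_, Mono.one⟩
  mul_mem' := fun {f g} ⟨b, hf⟩ ⟨c, hg⟩ => ⟨_, by simpa using hf.mul hg⟩
  inv_mem' := fun {f} ⟨b, hf⟩ => ⟨_, by simpa using hf.inv⟩

/-- Subgroup of translations. -/
def T2 : Subgroup E where
  carrier := {g | Mono g 0 (fun _ => 1)}
  one_mem' := Mono.one
  mul_mem' := fun {f g} hf hg => by simpa using hf.mul hg
  inv_mem' := fun {f} hf => by simpa using hf.inv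

lemma G_le_T0 : G ≤ T0 := by
  unfold G
  rw [Subgroup.closure_le]
  intro g hg
  rcases hg with rfl | hg
  · exact ⟨_, _, Mono.x⟩
  · rw [Set.mem_singleton_iff] at hg
    subst hg
    exact ⟨_, _, Mono.y⟩

lemma comm01 : ⁅T0, T0⁆ ≤ T1 := by
  rw [Subgroup.commutator_le]
  rintro f ⟨k, b, hf⟩ g ⟨l, c, hg⟩
  have h := ((hf.mul hg).mul hf.inv).mul hg.inv
  rw [commutatorElement_def]
  have e : (-l + (-k + (l + k))) = 0 := by ring
  rw [e] at h
  exact ⟨_, h⟩

lemma comm12 : ⁅T1, T1⁆ ≤ T2 := by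
  rw [Subgroup.commutator_le]
  rintro f ⟨b, hf⟩ g ⟨c, hg⟩
  have h := ((hf.mul hg).mul hf.inv).mul hg.inv
  rw [commutatorElement_def]
  have e : ((-0 : ℤ) + (-0 + (0 + 0))) = 0 := by ring
  rw [e] at h
  have e2 : (fun n => (fun n => (fun n => b (n + 0) * c n) (n + -0) * (fun n => b (n - 0)) n) (n + -0) * (fun n => c (n - 0)) n) = (fun _ : ℤ => (1 : ZMod 3)) := by
    funext n
    simp only [add_zero, sub_zero, neg_zero]
    have h1 := hf.1 n
    have h2 := hg.1 n
    calc b n * c n * b n * c n = (b n * b n) * (c n * c n) := by ring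
      _ = 1 := by rw [h1, h2, one_mul]
  rw [e2] at h
  exact h

lemma T2_apply {f : E} (hf : f ∈ T2) (u v : V) : f (u, v) = (u + (f (0, v)).1, v) := by
  obtain ⟨-, h2, h3⟩ := hf
  have h0 : ∀ u : V, f (u, 0) = (u, 0) := by
    intro u
    induction u using Finsupp.induction_linear with
    | zero => exact map_zero f
    | add p q hp hq =>
      have : ((p + q, 0) : W) = (p, 0) + (q, 0) := by simp
      rw [this, map_add, hp, hq]
    | single n c => rw [h2]; simp
  have : ((u, v) : W) = (u, 0) + (0, v) := by simp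
  rw [this, map_add, h0]
  ext1
  · simp
  · have := h3 (0, v)
    simp only at this
    simp [this]

lemma comm23 : ⁅T2, T2⁆ ≤ ⊥ := by
  rw [Subgroup.commutator_le]
  intro f hf g hg
  rw [Subgroup.mem_bot, commutatorElement_eq_one_iff_mul_comm]
  ext1 ⟨u, v⟩
  rw [LinearEquiv.mul_apply, LinearEquiv.mul_apply]
  have e1 : f (g (u, v)) = (u + (g (0, v)).1 + (f (0, v)).1, v) := by
    rw [T2_apply hg u v, T2_apply hf (u + (g (0, v)).1) v]
  have e2 : g (f (u, v)) = (u + (f (0, v)).1 + (g (0, v)).1, v) := by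
    rw [T2_apply hf u v, T2_apply hg (u + (f (0, v)).1) v]
  rw [e1, e2, add_right_comm]

lemma solvable : Group.IsSolvable G := by
  have h0 : (derivedSeries G 0).map G.subtype ≤ T0 := by
    rintro _ ⟨g, -, rfl⟩
    exact G_le_T0 g.2
  have h1 : (derivedSeries G 1).map G.subtype ≤ T1 := by
    rw [derivedSeries_succ, Subgroup.map_commutator]
    exact (Subgroup.commutator_mono h0 h0).trans comm01
  have h2 : (derivedSeries G 2).map G.subtype ≤ T2 := by
    rw [derivedSeries_succ, Subgroup.map_commutator]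
    exact (Subgroup.commutator_mono h1 h1).trans comm12
  have h3 : (derivedSeries G 3).map G.subtype ≤ ⊥ := by
    rw [derivedSeries_succ, Subgroup.map_commutator]
    exact (Subgroup.commutator_mono h2 h2).trans comm23
  refine ⟨3, ?_⟩
  rw [eq_bot_iff]
  intro g hg
  have := h3 ⟨g, hg, rfl⟩
  rw [Subgroup.mem_bot] at this ⊢
  exact Subtype.ext this

lemma fg : Group.FG G := by
  classical
  rw [Group.fg_iff_subgroup_fg]
  exact (Subgroup.fg_iff _).2 ⟨{x, y}, rfl, by simp⟩


/-! ### The vectors `e j` -/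

/-- The basis vector with index `2 * 4 ^ j`. -/
noncomputable def e (j : ℕ) : V := Finsupp.single (2 * 4 ^ j) 1

/-- Pairs `(c, e j)` with `c` supported within distance `r` of `2 * 4 ^ j`. -/
def Near (j r : ℕ) (w : W) : Prop :=
  w.2 = e j ∧ ∀ n : ℤ, w.1 n ≠ 0 → |n - 2 * 4 ^ j| ≤ r

lemma Near.y_apply {j r : ℕ} {w : W} (h : Near j r w) : Near j (r + 1) (y w) := by
  obtain ⟨h1, h2⟩ := h
  refine ⟨h1, fun n hn => ?_⟩
  rw [y_apply'] at hn
  simp only [Finsupp.add_apply, tL_apply, h1] at hn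
  by_cases hc : w.1 (n - 1) = 0
  · rw [hc, zero_add, e, Finsupp.single_apply] at hn
    have : 2 * 4 ^ j = n := by
      by_contra hne
      rw [if_neg hne] at hn
      exact hn rfl
    rw [this]; simp; positivity
  · have := h2 _ hc
    rw [abs_le] at this ⊢
    push_cast
    constructor <;> linarith [this.1, this.2]

lemma Near.y_inv_apply {j r : ℕ} {w : W} (h : Near j r w) : Near j (r + 1) (y⁻¹ w) := by
  obtain ⟨h1, h2⟩ := h
  refine ⟨h1, fun n hn => ?_⟩
  rw [y_inv_apply'] at hn
  simp only [tL_symm_apply, Finsupp.sub_apply, h1] at hn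
  by_cases hc : w.1 (n + 1) = 0
  · rw [hc, zero_sub, e, Finsupp.single_apply] at hn
    have : 2 * 4 ^ j = n + 1 := by
      by_contra hne
      rw [if_neg hne] at hn
      simp at hn
    rw [this]
    have e1 : n - (n + 1) = -1 := by ring
    rw [e1]; simp
  · have := h2 _ hc
    rw [abs_le] at this ⊢
    push_cast
    constructor <;> linarith [this.1, this.2]

lemma near_zpow (j : ℕ) (m : ℤ) : Near j m.natAbs ((y ^ m) (0, e j)) := by
  induction m using Int.induction_on with
  | zero =>
    refine ⟨rfl, fun n hn => ?_⟩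
    simp at hn
  | succ i ih =>
    have h1 : (y ^ ((i : ℤ) + 1)) (0, e j) = y ((y ^ (i : ℤ)) (0, e j)) := by
      rw [add_comm, zpow_one_add, LinearEquiv.mul_apply]
    rw [h1]
    have h2 : ((i : ℤ) + 1).natAbs = (i : ℤ).natAbs + 1 := by omega
    rw [h2]
    exact ih.y_apply
  | pred i ih =>
    have h1 : (y ^ (-(i : ℤ) - 1)) (0, e j) = y⁻¹ ((y ^ (-(i : ℤ))) (0, e j)) := by
      have : (-(i : ℤ) - 1) = -1 + -(i : ℤ) := by ring
      rw [this, zpow_add, zpow_neg_one, LinearEquiv.mul_apply]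
    rw [h1]
    have h2 : (-(i : ℤ) - 1).natAbs = (-(i : ℤ)).natAbs + 1 := by omega
    rw [h2]
    exact ih.y_inv_apply

lemma not_P {j : ℕ} {n : ℤ} (h1 : 4 ^ j < n) (h2 : n < 4 ^ (j + 1)) : ¬ P n := by
  rintro ⟨k, rfl⟩
  have h1' := (pow_lt_pow_iff_right₀ (by norm_num : (1 : ℤ) < 4)).1 h1
  have h2' := (pow_lt_pow_iff_right₀ (by norm_num : (1 : ℤ) < 4)).1 h2
  omega

lemma Near.x_apply {j r : ℕ} {w : W} (h : Near j r w) (hr : (r : ℤ) < 4 ^ j) : x w = w := by
  obtain ⟨h1, h2⟩ := h
  rw [x_apply']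
  ext1
  · ext n
    simp only [aL_apply]
    by_cases hc : w.1 n = 0
    · rw [hc, mul_zero]
    · have h3 := h2 n hc
      rw [abs_le] at h3
      rw [ep_of_not, one_mul]
      apply not_P (j := j)
      · linarith [h3.1]
      · rw [pow_succ]; linarith [h3.2]
  · rfl

/-- Good elements: monomial affine, and eventually acting on `(y ^ m) (0, e j)` as a power
of `y`. -/
def Good (g : E) : Prop :=
  ∃ k b, Mono g k b ∧ ∀ m : ℤ, ∃ K : ℕ, ∀ j ≥ K,
    g ((y ^ m) (0, e j)) = (y ^ (m + k)) (0, e j)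

lemma good_of_mem {g : E} (hg : g ∈ G) : Good g := by
  unfold G at hg
  induction hg using Subgroup.closure_induction with
  | mem g hg =>
    rcases hg with rfl | hg
    · refine ⟨_, _, Mono.x, fun m => ⟨m.natAbs, fun j hj => ?_⟩⟩
      rw [add_zero]
      apply (near_zpow j m).x_apply
      have h1 : m.natAbs < 4 ^ m.natAbs := Nat.lt_pow_self (by norm_num)
      have h2 : 4 ^ m.natAbs ≤ 4 ^ j := Nat.pow_le_pow_right (by norm_num) hj
      exact_mod_cast lt_of_lt_of_le h1 h2
    · rw [Set.mem_singleton_iff] at hg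
      subst hg
      refine ⟨_, _, Mono.y, fun m => ⟨0, fun j _ => ?_⟩⟩
      rw [add_comm, zpow_one_add, LinearEquiv.mul_apply]
  | one => exact ⟨_, _, Mono.one, fun m => ⟨0, fun j _ => by simp⟩⟩
  | mul f g _ _ hf hg =>
    obtain ⟨k, b, hf, hf'⟩ := hf
    obtain ⟨l, c, hg, hg'⟩ := hg
    refine ⟨_, _, hf.mul hg, fun m => ?_⟩
    obtain ⟨K1, hK1⟩ := hg' m
    obtain ⟨K2, hK2⟩ := hf' (m + l)
    refine ⟨max K1 K2, fun j hj => ?_⟩
    rw [LinearEquiv.mul_apply, hK1 j (le_of_max_le_left hj), hK2 j (le_of_max_le_right hj),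
      add_assoc]
  | inv f _ hf =>
    obtain ⟨k, b, hf, hf'⟩ := hf
    refine ⟨_, _, hf.inv, fun m => ?_⟩
    obtain ⟨K, hK⟩ := hf' (m + -k)
    refine ⟨K, fun j hj => ?_⟩
    have h := hK j hj
    rw [neg_add_cancel_right] at h
    rw [← h]
    exact LinearEquiv.symm_apply_apply f _

/-! ### Colourings -/

lemma finite_quotient {h : V →ₗ[ZMod 3] V} {k : ℤ} {b : ℤ → ZMod 3} (hk : k ≠ 0)
    (hb : ∀ n, b n * b n = 1)
    (hh : ∀ n c, h (Finsupp.single n c) = Finsupp.single (n + k) (b n * c)) :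
    Finite (V ⧸ LinearMap.range (LinearMap.id - h)) := by
  set R := LinearMap.range (LinearMap.id - h) with hR
  set Sp : Submodule (ZMod 3) (V ⧸ R) :=
    Submodule.span (ZMod 3) ((fun n : ℤ => R.mkQ (Finsupp.single n 1)) '' (Set.Ico 0 |k|)) with hSp
  have key : ∀ n : ℤ, R.mkQ (Finsupp.single n 1) = b n • R.mkQ (Finsupp.single (n + k) 1) := by
    intro n
    rw [← map_smul, ← sub_eq_zero, ← map_sub, Submodule.mkQ_apply, Submodule.Quotient.mk_eq_zero]
    refine ⟨Finsupp.single n 1, ?_⟩
    rw [LinearMap.sub_apply, hh]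
    simp
  have key1 : ∀ n : ℤ, R.mkQ (Finsupp.single n 1) ∈ Sp ↔ R.mkQ (Finsupp.single (n + k) 1) ∈ Sp := by
    intro n
    constructor
    · intro h1
      have : R.mkQ (Finsupp.single (n + k) 1) = b n • R.mkQ (Finsupp.single n 1) := by
        rw [key n, smul_smul, hb, one_smul]
      rw [this]
      exact Sp.smul_mem _ h1
    · intro h1
      rw [key n]
      exact Sp.smul_mem _ h1
  have key2 : ∀ (m n : ℤ), R.mkQ (Finsupp.single n 1) ∈ Sp ↔
      R.mkQ (Finsupp.single (n + m * k) 1) ∈ Sp := by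
    intro m
    induction m using Int.induction_on with
    | zero => intro n; simp
    | succ i ih =>
      intro n
      rw [ih n, key1 (n + i * k)]
      have : n + (i : ℤ) * k + k = n + ((i : ℤ) + 1) * k := by ring
      rw [this]
    | pred i ih =>
      intro n
      rw [ih n, key1 (n + (-(i : ℤ) - 1) * k)]
      have : n + (-(i : ℤ) - 1) * k + k = n + -(i : ℤ) * k := by ring
      rw [this]
  have key3 : ∀ n : ℤ, R.mkQ (Finsupp.single n 1) ∈ Sp := by
    intro n
    have h1 : n % k + (n / k) * k = n := by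
      rw [mul_comm]; exact Int.emod_add_mul_ediv n k
    rw [← h1, ← key2]
    apply Submodule.subset_span
    exact ⟨n % k, ⟨Int.emod_nonneg n hk, Int.emod_lt_abs n hk⟩, rfl⟩
  have key4 : Sp = ⊤ := by
    rw [eq_top_iff]
    rintro z -
    obtain ⟨f, rfl⟩ := R.mkQ_surjective z
    induction f using Finsupp.induction_linear with
    | zero => rw [map_zero]; exact Sp.zero_mem
    | add f g hf hg => rw [map_add]; exact Sp.add_mem hf hg
    | single n c =>
      have : Finsupp.single n c = c • Finsupp.single n (1 : ZMod 3) := by simp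
      rw [this, map_smul]
      exact Sp.smul_mem _ (key3 n)
  have : Module.Finite (ZMod 3) (V ⧸ R) := by
    refine ⟨?_⟩
    rw [← key4, hSp]
    exact Submodule.fg_span ((Set.finite_Ico _ _).image _)
  exact Module.finite_of_finite (ZMod 3)

lemma coloring {g : E} (hg : Good g) :
    ∃ (Q : Type) (_ : Finite Q) (c : ℕ → Q), ∀ i j, i ≠ j → c i = c j →
      ∃ u : V, g (u, e i - e j) = (u, e i - e j) := by
  obtain ⟨k, b, hm, hK⟩ := hg
  by_cases hk : k = 0
  · obtain ⟨K, hK⟩ := hK 0
    refine ⟨Fin (K + 1), inferInstance, fun j => ⟨min j K, by omega⟩, fun i j hij hc => ?_⟩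
    simp only [Fin.mk.injEq] at hc
    have hi : K ≤ i := by omega
    have hj : K ≤ j := by omega
    refine ⟨0, ?_⟩
    have h1 := hK i hi
    have h2 := hK j hj
    simp only [hk, zpow_zero, add_zero, LinearEquiv.coe_one, id_eq] at h1 h2
    have : ((0, e i - e j) : W) = (0, e i) - (0, e j) := by simp
    rw [this, map_sub, h1, h2]
  · set h : V →ₗ[ZMod 3] V := (LinearMap.fst _ _ _) ∘ₗ g.toLinearMap ∘ₗ (LinearMap.inl _ _ _) with hh
    set D : V →ₗ[ZMod 3] V := (LinearMap.fst _ _ _) ∘ₗ g.toLinearMap ∘ₗ (LinearMap.inr _ _ _) with hD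
    have hg : ∀ u v : V, g (u, v) = (h u + D v, v) := by
      intro u v
      have h1 : ((u, v) : W) = (u, 0) + (0, v) := by simp
      ext1
      · rw [h1, map_add]; rfl
      · exact hm.2.2 (u, v)
    refine ⟨V ⧸ LinearMap.range (LinearMap.id - h), ?_, fun j => Submodule.Quotient.mk (D (e j)),
      fun i j _ hc => ?_⟩
    · apply finite_quotient hk hm.1
      intro n c
      have := hm.2.1 n c
      rw [hg] at this
      simpa using congrArg Prod.fst this
    · rw [Submodule.Quotient.eq] at hc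
      obtain ⟨u, hu⟩ := hc
      refine ⟨u, ?_⟩
      rw [hg, map_sub, ← hu]
      simp


/-! ### Transitivity on the fibre over `v` -/

lemma x_mem : x ∈ G := Subgroup.subset_closure (by simp)
lemma y_mem : y ∈ G := Subgroup.subset_closure (by simp)

/-- The translations of the fibre over `v` realised by elements of `G`. -/
def N (v : V) : AddSubgroup V where
  carrier := {τ | ∃ g ∈ G, ∀ u, g (u, v) = (u + τ, v)}
  zero_mem' := ⟨1, G.one_mem, fun u => by simp⟩
  add_mem' := by
    rintro σ τ ⟨f, hf, hf'⟩ ⟨g, hg, hg'⟩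
    refine ⟨f * g, G.mul_mem hf hg, fun u => ?_⟩
    rw [LinearEquiv.mul_apply, hg', hf', add_assoc, add_comm τ σ]
  neg_mem' := by
    rintro τ ⟨g, hg, hg'⟩
    refine ⟨g⁻¹, G.inv_mem hg, fun u => ?_⟩
    have h := hg' (u + -τ)
    rw [neg_add_cancel_right] at h
    rw [← h]
    exact LinearEquiv.symm_apply_apply g _

lemma N_a {v τ : V} (h : τ ∈ N v) : aL τ ∈ N v := by
  obtain ⟨g, hg, hg'⟩ := h
  refine ⟨x * g * x⁻¹, G.mul_mem (G.mul_mem x_mem hg) (G.inv_mem x_mem), fun u => ?_⟩
  rw [LinearEquiv.mul_apply, LinearEquiv.mul_apply, x_inv_apply', hg', x_apply']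
  simp [aL_aL]

lemma N_t {v τ : V} (h : τ ∈ N v) : tL τ ∈ N v := by
  obtain ⟨g, hg, hg'⟩ := h
  refine ⟨y * g * y⁻¹, G.mul_mem (G.mul_mem y_mem hg) (G.inv_mem y_mem), fun u => ?_⟩
  rw [LinearEquiv.mul_apply, LinearEquiv.mul_apply, y_inv_apply', hg', y_apply']
  ext1
  · simp; abel
  · rfl

lemma N_t_symm {v τ : V} (h : τ ∈ N v) : tL.symm τ ∈ N v := by
  obtain ⟨g, hg, hg'⟩ := h
  refine ⟨y⁻¹ * g * y, G.mul_mem (G.mul_mem (G.inv_mem y_mem) hg) y_mem, fun u => ?_⟩
  rw [LinearEquiv.mul_apply, LinearEquiv.mul_apply, y_apply', hg', y_inv_apply']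
  ext1
  · simp; abel
  · rfl

lemma tz_apply (n : ℤ) (f : V) (q : ℤ) : (tL ^ n) f q = f (q - n) := by
  induction n using Int.induction_on generalizing q with
  | zero => simp
  | succ i ih =>
    rw [add_comm, zpow_one_add, LinearEquiv.mul_apply, tL_apply, ih]
    congr 1; ring
  | pred i ih =>
    have : (-(i : ℤ) - 1) = -1 + -(i : ℤ) := by ring
    rw [this, zpow_add, zpow_neg_one, LinearEquiv.mul_apply]
    show tL.symm _ q = _
    rw [tL_symm_apply, ih]
    congr 1; ring

lemma N_tz {v τ : V} (h : τ ∈ N v) (n : ℤ) : (tL ^ n) τ ∈ N v := by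
  induction n using Int.induction_on with
  | zero => simpa using h
  | succ i ih =>
    rw [add_comm, zpow_one_add, LinearEquiv.mul_apply]
    exact N_t ih
  | pred i ih =>
    have : (-(i : ℤ) - 1) = -1 + -(i : ℤ) := by ring
    rw [this, zpow_add, zpow_neg_one, LinearEquiv.mul_apply]
    exact N_t_symm ih

/-- Conjugates of the diagonal operator. -/
noncomputable def M (n : ℤ) (f : V) : V := (tL ^ n) (aL ((tL ^ (-n)) f))

lemma M_apply (n : ℤ) (f : V) (q : ℤ) : M n f q = ep (q - n) * f q := by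
  rw [M, tz_apply, aL_apply, tz_apply]
  congr 2; ring

lemma N_M {v τ : V} (h : τ ∈ N v) (n : ℤ) : M n τ ∈ N v := N_tz (N_a (N_tz h _)) _

lemma N_single {v τ : V} (h : τ ∈ N v) (q : ℤ) : Finsupp.single q (τ q) ∈ N v := by
  have h1 : τ - M (q - 1) τ ∈ N v := (N v).sub_mem h (N_M h _)
  set τ1 := τ - M (q - 1) τ with hτ1
  have h2 : τ1 - M (q - 4) τ1 ∈ N v := (N v).sub_mem h1 (N_M h1 _)
  have h3 : τ1 - M (q - 4) τ1 = Finsupp.single q (τ q) := by
    ext r
    have e1 : (τ1 - M (q - 4) τ1) r = (1 - ep (r - (q - 4))) * ((1 - ep (r - (q - 1))) * τ r) := by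
      rw [hτ1]
      simp only [Finsupp.sub_apply, M_apply]
      ring
    rw [e1]
    by_cases hr : r = q
    · subst hr
      have p1 : P (r - (r - 4)) := ⟨1, by norm_num⟩
      have p2 : P (r - (r - 1)) := ⟨0, by norm_num⟩
      rw [ep_of p1, ep_of p2, Finsupp.single_eq_same, ← mul_assoc]
      have : (1 - (-1 : ZMod 3)) * (1 - -1) = 1 := by decide
      rw [this, one_mul]
    · rw [Finsupp.single_apply, if_neg (Ne.symm hr)]
      by_cases p1 : P (r - (q - 4))
      · by_cases p2 : P (r - (q - 1))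
        · exfalso
          obtain ⟨i, hi⟩ := p1
          obtain ⟨j, hj⟩ := p2
          apply hr
          have h4 : (4 : ℤ) ^ i = 4 ^ j + 3 := by rw [← hi, ← hj]; ring
          rcases j with _ | j
          · rw [pow_zero] at hj; omega
          · rcases i with _ | i
            · rw [pow_zero] at h4
              have : (0 : ℤ) < 4 ^ (j + 1) := by positivity
              omega
            · rw [pow_succ, pow_succ] at h4
              omega
        · rw [ep_of_not p2]; simp
      · rw [ep_of_not p1]; simp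
  rw [← h3]
  exact h2

lemma N_eq_top {v τ : V} (h : τ ∈ N v) (hτ : τ ≠ 0) (σ : V) : σ ∈ N v := by
  obtain ⟨q, hq⟩ : ∃ q, τ q ≠ 0 := by
    by_contra hcon
    push Not at hcon
    exact hτ (Finsupp.ext hcon)
  have h1 := N_single h q
  have h2 : ∀ c : ZMod 3, Finsupp.single q c ∈ N v := by
    intro c
    have h3 : c = ((c * (τ q)⁻¹).val : ZMod 3) * τ q := by
      rw [ZMod.natCast_val, ZMod.cast_id', id_eq, mul_assoc, inv_mul_cancel₀ hq, mul_one]
    rw [h3, ← nsmul_eq_mul, ← Finsupp.smul_single]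
    exact (N v).nsmul_mem h1 _
  have h3 : ∀ (n : ℤ) (c : ZMod 3), Finsupp.single n c ∈ N v := by
    intro n c
    have h4 := N_tz (h2 c) (n - q)
    have h5 : (tL ^ (n - q)) (Finsupp.single q c) = Finsupp.single n c := by
      ext r
      rw [tz_apply, Finsupp.single_apply, Finsupp.single_apply]
      congr 1
      apply propext
      constructor <;> intro <;> omega
    rwa [h5] at h4
  induction σ using Finsupp.induction_linear with
  | zero => exact (N v).zero_mem
  | add f g hf hg => exact (N v).add_mem hf hg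
  | single n c => exact h3 n c

lemma y_pow_apply (n : ℕ) (u v : V) : (y ^ n) (u, v) = ((tL ^ (n : ℤ)) u + ((y ^ n) (0, v)).1, v) := by
  induction n with
  | zero => simp
  | succ n ih =>
    rw [pow_succ', LinearEquiv.mul_apply, LinearEquiv.mul_apply, ih, y_apply', y_apply']
    have h2 : ((y ^ n) (0, v)).2 = v := by
      have h0 : ∀ n : ℕ, ((y ^ n) (0, v)).2 = v := by
        intro n
        induction n with
        | zero => rfl
        | succ n ih => rw [pow_succ', LinearEquiv.mul_apply, y_apply', ih]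
      exact h0 n
    rw [h2]
    ext1
    · simp only [map_add]
      rw [Nat.cast_succ, add_comm (n : ℤ) 1, zpow_one_add, LinearEquiv.mul_apply, add_assoc]
    · rfl

lemma sum_apply (n : ℕ) (v : V) (q : ℤ) :
    ((y ^ n) (0, v)).1 q = ∑ l ∈ Finset.range n, v (q - l) := by
  induction n generalizing q with
  | zero => simp
  | succ n ih =>
    have h2 : ((y ^ n) (0, v)).2 = v := by
      rw [y_pow_apply]
    rw [pow_succ', LinearEquiv.mul_apply, y_apply', h2]
    simp only [Finsupp.add_apply, tL_apply]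
    rw [ih, Finset.sum_range_succ']
    congr 1
    · apply Finset.sum_congr rfl
      intro l _
      congr 1
      push_cast; ring
    · simp

lemma M_M (n : ℤ) (f : V) : M n (M n f) = f := by
  ext q; rw [M_apply, M_apply, ← mul_assoc, ep_sq, one_mul]

lemma M_sub (n : ℤ) (f g : V) : M n (f - g) = M n f - M n g := by
  simp [M]

lemma M_add (n : ℤ) (f g : V) : M n (f + g) = M n f + M n g := by
  simp [M]

lemma M_aL (n : ℤ) (f : V) : M n (aL f) = aL (M n f) := by
  ext q; simp only [M_apply, aL_apply]; ring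

lemma xn_apply (n : ℕ) (u v : V) : (y ^ n * x * (y ^ n)⁻¹) (u, v) =
    (M n (u - ((y ^ n) (0, v)).1) + ((y ^ n) (0, v)).1, v) := by
  set s := ((y ^ n) (0, v)).1 with hs
  rw [LinearEquiv.mul_apply, LinearEquiv.mul_apply]
  have h1 : (y ^ n)⁻¹ (u, v) = ((tL ^ (-(n : ℤ))) (u - s), v) := by
    have h2 : (u, v) = (y ^ n) ((tL ^ (-(n : ℤ))) (u - s), v) := by
      rw [y_pow_apply, ← hs, ← LinearEquiv.mul_apply, ← zpow_add]
      simp
    conv_lhs => rw [h2]
    exact LinearEquiv.symm_apply_apply (y ^ n) _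
  rw [h1, x_apply', y_pow_apply, ← hs]
  rfl

lemma xn_inv_apply (n : ℕ) (u v : V) : (y ^ n * x * (y ^ n)⁻¹)⁻¹ (u, v) =
    (M n (u - ((y ^ n) (0, v)).1) + ((y ^ n) (0, v)).1, v) := by
  have h : (u, v) = (y ^ n * x * (y ^ n)⁻¹)
      (M n (u - ((y ^ n) (0, v)).1) + ((y ^ n) (0, v)).1, v) := by
    rw [xn_apply, add_sub_cancel_right, M_M, sub_add_cancel]
  conv_lhs => rw [h]
  exact LinearEquiv.symm_apply_apply (y ^ n * x * (y ^ n)⁻¹) _

lemma comm_mem (n : ℕ) (v : V) :
    aL (((y ^ n) (0, v)).1 - M n ((y ^ n) (0, v)).1) - (((y ^ n) (0, v)).1 - M n ((y ^ n) (0, v)).1)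
      ∈ N v := by
  have hxn : y ^ n * x * (y ^ n)⁻¹ ∈ G :=
    G.mul_mem (G.mul_mem (G.pow_mem y_mem n) x_mem) (G.inv_mem (G.pow_mem y_mem n))
  refine ⟨x * (y ^ n * x * (y ^ n)⁻¹) * x⁻¹ * (y ^ n * x * (y ^ n)⁻¹)⁻¹,
    G.mul_mem (G.mul_mem (G.mul_mem x_mem hxn) (G.inv_mem x_mem)) (G.inv_mem hxn), fun u => ?_⟩
  rw [LinearEquiv.mul_apply, LinearEquiv.mul_apply, LinearEquiv.mul_apply, xn_inv_apply,
    x_inv_apply', xn_apply, x_apply']
  set s := ((y ^ n) (0, v)).1 with hs
  ext1
  · simp only [map_add, map_sub, M_add, M_sub, M_aL, M_M, aL_aL]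
    abel
  · rfl

lemma transitive {i j : ℕ} (hij : i < j) (u : V) : ∃ g ∈ G, g (0, e i - e j) = (u, e i - e j) := by
  set v := e i - e j with hv
  set s := ((y ^ (3 * 4 ^ i)) (0, v)).1 with hs
  have hs1 : s (4 ^ (i + 1)) = 1 := by
    rw [hs, sum_apply]
    rw [Finset.sum_eq_single (2 * 4 ^ i)]
    · have h1 : (2 * 4 ^ i : ℤ) = 4 ^ (i + 1) - ((2 * 4 ^ i : ℕ) : ℤ) := by
        push_cast; rw [pow_succ]; ring
      rw [← h1, hv, Finsupp.sub_apply, e, e, Finsupp.single_eq_same, Finsupp.single_apply, if_neg,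
        sub_zero]
      intro h
      have h2 : (4 : ℤ) ^ j = 4 ^ i := by linarith
      have h3 := (pow_right_injective₀ (by norm_num : (0 : ℤ) < 4) (by norm_num)) h2
      omega
    · intro l hl hne
      rw [Finset.mem_range] at hl
      rw [hv, Finsupp.sub_apply, e, e, Finsupp.single_apply, Finsupp.single_apply, if_neg, if_neg,
        sub_zero]
      · intro h
        have h2 : (4 : ℤ) ^ (i + 1) ≤ 4 ^ j := pow_le_pow_right₀ (by norm_num) hij
        have h3 : (0 : ℤ) < 4 ^ j := by positivity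
        omega
      · intro h
        apply hne
        have h2 : (l : ℤ) = 2 * 4 ^ i := by
          rw [pow_succ] at h; linarith
        exact_mod_cast h2
    · intro h
      exfalso
      apply h
      rw [Finset.mem_range]
      have : 0 < 4 ^ i := by positivity
      omega
  have hmem := comm_mem (3 * 4 ^ i) v
  rw [← hs] at hmem
  have hne : aL (s - M ((3 * 4 ^ i : ℕ) : ℤ) s) - (s - M ((3 * 4 ^ i : ℕ) : ℤ) s) ≠ 0 := by
    intro h
    have h1 := DFunLike.congr_fun h (4 ^ (i + 1) : ℤ)
    simp only [Finsupp.sub_apply, aL_apply, M_apply, hs1, Finsupp.zero_apply] at h1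
    have p1 : P (4 ^ (i + 1)) := ⟨i + 1, rfl⟩
    have p2 : P ((4 : ℤ) ^ (i + 1) - ((3 * 4 ^ i : ℕ) : ℤ)) := ⟨i, by
      push_cast; rw [pow_succ]; ring⟩
    rw [ep_of p1, ep_of p2] at h1
    revert h1
    decide
  obtain ⟨g, hg, hg'⟩ := N_eq_top hmem hne u
  refine ⟨g, hg, ?_⟩
  rw [hg', zero_add]

/-- Main statement: for every finite subset of `G` there are conjugates of its elements which
generate a proper subgroup. -/
theorem not_FIG (S : Finset G) : ∃ g : G → G,
    Subgroup.closure ((fun s => (g s)⁻¹ * s * g s) '' (S : Set G)) ≠ ⊤ := by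
  classical
  choose Q hQ c hc using fun s : S => coloring (good_of_mem s.1.2)
  have := hQ
  obtain ⟨i, j, hij, hcij⟩ := Finite.exists_ne_map_eq_of_infinite (fun n : ℕ => fun s : S => c s n)
  obtain ⟨i, j, hij, hcij⟩ : ∃ i j, i < j ∧ (fun s : S => c s i) = (fun s : S => c s j) := by
    rcases lt_or_gt_of_ne hij with h | h
    · exact ⟨i, j, h, hcij⟩
    · exact ⟨j, i, h, hcij.symm⟩
  have hfix : ∀ s : S, ∃ u : V, (s.1.1 : E) (u, e i - e j) = (u, e i - e j) :=
    fun s => hc s i j hij.ne (congrFun hcij s)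
  have hg : ∀ s : G, ∃ g : G, s ∈ S → ((g⁻¹ * s * g : G) : E) (0, e i - e j) = (0, e i - e j) := by
    intro s
    by_cases hs : s ∈ S
    · obtain ⟨u, hu⟩ := hfix ⟨s, hs⟩
      obtain ⟨g, hg, hg'⟩ := transitive hij u
      refine ⟨⟨g, hg⟩, fun _ => ?_⟩
      simp only [Subgroup.coe_mul, Subgroup.coe_inv]
      rw [LinearEquiv.mul_apply, LinearEquiv.mul_apply, hg', hu, ← hg']
      exact LinearEquiv.symm_apply_apply g _
    · exact ⟨1, fun h => absurd h hs⟩
  choose g hg using hg
  refine ⟨g, fun htop => ?_⟩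
  let St : Subgroup G :=
    { carrier := {f | (f : E) (0, e i - e j) = (0, e i - e j)}
      one_mem' := rfl
      mul_mem' := fun {f h} hf hh => by
        simp only [Set.mem_ofPred_eq, Subgroup.coe_mul, LinearEquiv.mul_apply] at *
        rw [hh, hf]
      inv_mem' := fun {f} hf => by
        simp only [Set.mem_ofPred_eq, Subgroup.coe_inv] at *
        conv_lhs => rw [← hf]
        exact LinearEquiv.symm_apply_apply _ _ }
  have h1 : Subgroup.closure ((fun s => (g s)⁻¹ * s * g s) '' (S : Set G)) ≤ St := by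
    rw [Subgroup.closure_le]
    rintro _ ⟨s, hs, rfl⟩
    exact hg s hs
  rw [htop] at h1
  obtain ⟨f, hf, hf'⟩ := transitive hij (Finsupp.single 0 1)
  have h2 : (⟨f, hf⟩ : G) ∈ St := h1 (Subgroup.mem_top _)
  have h3 : f (0, e i - e j) = (0, e i - e j) := h2
  rw [hf'] at h3
  have h4 := congrArg (fun w : W => w.1 0) h3
  simp at h4

end Pool.Agent.Work.MP_98fcd2_al
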