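import Pool.Agent.Work.MP_98fcd2_al.NotFIG

/-!
# The stabilisers are maximal subgroups of infinite index

Complements to `NotFIG.lean`: the module `V` is irreducible, so the stabiliser of the point
`(0, e i - e j)` is a maximal subgroup of infinite index; the group is two-generated, its third
derived subgroup is trivial and its second derived subgroup has exponent three.
-/

set_option autoImplicit false
set_option linter.unusedVariables false

namespace Pool.Agent.Work.MP_98fcd2_al

/-- `V` has no proper nonzero subgroup invariant under `a`, `t`, `t⁻¹`. -/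
lemma irreducible (A : AddSubgroup V) (ha : ∀ τ ∈ A, aL τ ∈ A) (ht : ∀ τ ∈ A, tL τ ∈ A)
    (ht' : ∀ τ ∈ A, tL.symm τ ∈ A) {τ : V} (h : τ ∈ A) (hτ : τ ≠ 0) (σ : V) : σ ∈ A := by
  have htz : ∀ (n : ℤ) {τ : V}, τ ∈ A → (tL ^ n) τ ∈ A := by
    intro n τ h
    induction n using Int.induction_on with
    | zero => simpa using h
    | succ i ih =>
      rw [add_comm, zpow_one_add, LinearEquiv.mul_apply]
      exact ht _ ih
    | pred i ih =>
      have : (-(i : ℤ) - 1) = -1 + -(i : ℤ) := by ring
      rw [this, zpow_add, zpow_neg_one, LinearEquiv.mul_apply]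
      exact ht' _ ih
  have hM : ∀ (n : ℤ) {τ : V}, τ ∈ A → M n τ ∈ A := fun n τ h => htz _ (ha _ (htz _ h))
  have hsingle : ∀ q : ℤ, Finsupp.single q (τ q) ∈ A := by
    intro q
    have h1 : τ - M (q - 1) τ ∈ A := A.sub_mem h (hM _ h)
    set τ1 := τ - M (q - 1) τ with hτ1
    have h2 : τ1 - M (q - 4) τ1 ∈ A := A.sub_mem h1 (hM _ h1)
    have h3 : τ1 - M (q - 4) τ1 = Finsupp.single q (τ q) := by
      ext r
      have e1 : (τ1 - M (q - 4) τ1) r =
          (1 - ep (r - (q - 4))) * ((1 - ep (r - (q - 1))) * τ r) := by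
        rw [hτ1]
        simp only [Finsupp.sub_apply, M_apply]
        ring
      rw [e1]
      by_cases hr : r = q
      · subst hr
        have p1 : P (r - (r - 4)) := ⟨1, by norm_num⟩
        have p2 : P (r - (r - 1)) := ⟨0, by norm_num⟩
        rw [ep_of p1, ep_of p2, Finsupp.single_eq_same, ← mul_assoc]
        have : (1 - (-1 : ZMod 3)) * (1 - -1) = 1 := by decide
        rw [this, one_mul]
      · rw [Finsupp.single_apply, if_neg (Ne.symm hr)]
        by_cases p1 : P (r - (q - 4))
        · by_cases p2 : P (r - (q - 1))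
          · exfalso
            obtain ⟨i, hi⟩ := p1
            obtain ⟨j, hj⟩ := p2
            apply hr
            have h4 : (4 : ℤ) ^ i = 4 ^ j + 3 := by rw [← hi, ← hj]; ring
            rcases j with _ | j
            · rw [pow_zero] at hj; omega
            · rcases i with _ | i
              · rw [pow_zero] at h4
                have : (0 : ℤ) < 4 ^ (j + 1) := by positivity
                omega
              · rw [pow_succ, pow_succ] at h4
                omega
          · rw [ep_of_not p2]; simp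
        · rw [ep_of_not p1]; simp
    rw [← h3]
    exact h2
  obtain ⟨q, hq⟩ : ∃ q, τ q ≠ 0 := by
    by_contra hcon
    push Not at hcon
    exact hτ (Finsupp.ext hcon)
  have h1 := hsingle q
  have h2 : ∀ c : ZMod 3, Finsupp.single q c ∈ A := by
    intro c
    have h3 : c = ((c * (τ q)⁻¹).val : ZMod 3) * τ q := by
      rw [ZMod.natCast_val, ZMod.cast_id', id_eq, mul_assoc, inv_mul_cancel₀ hq, mul_one]
    rw [h3, ← nsmul_eq_mul, ← Finsupp.smul_single]
    exact A.nsmul_mem h1 _
  have h3 : ∀ (n : ℤ) (c : ZMod 3), Finsupp.single n c ∈ A := by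
    intro n c
    have h4 := htz (n - q) (h2 c)
    have h5 : (tL ^ (n - q)) (Finsupp.single q c) = Finsupp.single n c := by
      ext r
      rw [tz_apply, Finsupp.single_apply, Finsupp.single_apply]
      congr 1
      apply propext
      constructor <;> intro <;> omega
    rwa [h5] at h4
  induction σ using Finsupp.induction_linear with
  | zero => exact A.zero_mem
  | add f g hf hg => exact A.add_mem hf hg
  | single n c => exact h3 n c

/-- The stabiliser of the point `(0, e i - e j)`. -/
def St (i j : ℕ) : Subgroup G where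
  carrier := {f | (f : E) (0, e i - e j) = (0, e i - e j)}
  one_mem' := rfl
  mul_mem' := fun {f h} hf hh => by
    simp only [Set.mem_ofPred_eq, Subgroup.coe_mul, LinearEquiv.mul_apply] at *
    rw [hh, hf]
  inv_mem' := fun {f} hf => by
    simp only [Set.mem_ofPred_eq, Subgroup.coe_inv] at *
    conv_lhs => rw [← hf]
    exact LinearEquiv.symm_apply_apply _ _

lemma mem_St {i j : ℕ} {f : G} : f ∈ St i j ↔ (f : E) (0, e i - e j) = (0, e i - e j) := Iff.rfl

/-- All translations of the fibre over `e i - e j` are realised by elements of `G`. -/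
lemma translations {i j : ℕ} (hij : i < j) (τ : V) : τ ∈ N (e i - e j) := by
  have hT : ∀ w : V, ∃ g ∈ G, g (0, e i - e j) = (w, e i - e j) := transitive hij
  -- the same computation as in `transitive`: a nonzero element of `N`
  set v := e i - e j with hv
  set s := ((y ^ (3 * 4 ^ i)) (0, v)).1 with hs
  have hs1 : s (4 ^ (i + 1)) = 1 := by
    rw [hs, sum_apply]
    rw [Finset.sum_eq_single (2 * 4 ^ i)]
    · have h1 : (2 * 4 ^ i : ℤ) = 4 ^ (i + 1) - ((2 * 4 ^ i : ℕ) : ℤ) := by
        push_cast; rw [pow_succ]; ring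
      rw [← h1, hv, Finsupp.sub_apply, e, e, Finsupp.single_eq_same, Finsupp.single_apply, if_neg,
        sub_zero]
      intro h
      have h2 : (4 : ℤ) ^ j = 4 ^ i := by linarith
      have h3 := (pow_right_injective₀ (by norm_num : (0 : ℤ) < 4) (by norm_num)) h2
      omega
    · intro l hl hne
      rw [Finset.mem_range] at hl
      rw [hv, Finsupp.sub_apply, e, e, Finsupp.single_apply, Finsupp.single_apply, if_neg, if_neg,
        sub_zero]
      · intro h
        have h2 : (4 : ℤ) ^ (i + 1) ≤ 4 ^ j := pow_le_pow_right₀ (by norm_num) hij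
        have h3 : (0 : ℤ) < 4 ^ j := by positivity
        omega
      · intro h
        apply hne
        have h2 : (l : ℤ) = 2 * 4 ^ i := by
          rw [pow_succ] at h; linarith
        exact_mod_cast h2
    · intro h
      exfalso
      apply h
      rw [Finset.mem_range]
      have : 0 < 4 ^ i := by positivity
      omega
  have hmem := comm_mem (3 * 4 ^ i) v
  rw [← hs] at hmem
  have hne : aL (s - M ((3 * 4 ^ i : ℕ) : ℤ) s) - (s - M ((3 * 4 ^ i : ℕ) : ℤ) s) ≠ 0 := by
    intro h
    have h1 := DFunLike.congr_fun h (4 ^ (i + 1) : ℤ)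
    simp only [Finsupp.sub_apply, aL_apply, M_apply, hs1, Finsupp.zero_apply] at h1
    have p1 : P (4 ^ (i + 1)) := ⟨i + 1, rfl⟩
    have p2 : P ((4 : ℤ) ^ (i + 1) - ((3 * 4 ^ i : ℕ) : ℤ)) := ⟨i, by
      push_cast; rw [pow_succ]; ring⟩
    rw [ep_of p1, ep_of p2] at h1
    revert h1
    decide
  exact N_eq_top hmem hne τ

/-- The action of an element of `G` on a fibre is affine. -/
lemma affine (g : G) (u τ v : V) : ((g : E) (u + τ, v)).1 = ((g : E) (u, v)).1 + ((g : E) (τ, 0)).1 := by
  have : ((u + τ, v) : W) = (u, v) + (τ, 0) := by simp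
  rw [this, map_add]; rfl

/-- Elements of `G` preserve the fibres. -/
lemma fibre (g : G) (w : W) : ((g : E) w).2 = w.2 := by
  obtain ⟨k, b, hm, -⟩ := good_of_mem g.2
  exact hm.2.2 w

/-- The stabiliser of `(0, e i - e j)` is a maximal subgroup. -/
theorem St_isCoatom {i j : ℕ} (hij : i < j) : IsCoatom (St i j) := by
  set v := e i - e j with hv
  refine ⟨?_, fun K hK => ?_⟩
  · intro h
    obtain ⟨f, hf, hf'⟩ := transitive hij (Finsupp.single 0 1)
    have h2 : (⟨f, hf⟩ : G) ∈ St i j := h ▸ Subgroup.mem_top _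
    have h3 : f (0, e i - e j) = (0, e i - e j) := h2
    rw [hf'] at h3
    have h4 := congrArg (fun w : W => w.1 0) h3
    simp at h4
  · -- translations of the fibre realised in `K`
    let A : AddSubgroup V :=
      { carrier := {τ | ∃ g ∈ K, ∀ u, (g : E) (u, v) = (u + τ, v)}
        zero_mem' := ⟨1, K.one_mem, fun u => by simp⟩
        add_mem' := by
          rintro σ τ ⟨f, hf, hf'⟩ ⟨g, hg, hg'⟩
          refine ⟨f * g, K.mul_mem hf hg, fun u => ?_⟩
          rw [Subgroup.coe_mul, LinearEquiv.mul_apply, hg', hf', add_assoc, add_comm τ σ]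
        neg_mem' := by
          rintro τ ⟨g, hg, hg'⟩
          refine ⟨g⁻¹, K.inv_mem hg, fun u => ?_⟩
          have h := hg' (u + -τ)
          rw [neg_add_cancel_right] at h
          rw [← h]
          exact LinearEquiv.symm_apply_apply (g : E) _ }
    have hA : ∀ τ : V, τ ∈ A ↔ ∃ g ∈ K, ∀ u, (g : E) (u, v) = (u + τ, v) := fun τ => Iff.rfl
    -- each element of `G` is a translation of the fibre times an element of the stabiliser
    have hdec : ∀ g : G, ∃ n : G, (∀ u, (n : E) (u, v) = (u + ((g : E) (0, v)).1, v)) ∧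
        n⁻¹ * g ∈ St i j := by
      intro g
      obtain ⟨n, hn, hn'⟩ := translations hij ((g : E) (0, v)).1
      refine ⟨⟨n, hn⟩, hn', ?_⟩
      rw [mem_St]
      rw [Subgroup.coe_mul, LinearEquiv.mul_apply]
      have h1 : (g : E) (0, v) = (((g : E) (0, v)).1, v) := Prod.ext rfl (fibre g _)
      have h2 := hn' 0
      rw [zero_add] at h2
      rw [← hv, h1, ← h2]
      exact LinearEquiv.symm_apply_apply n _
    have hle : St i j ≤ K := hK.le
    -- a conjugation
    have hconj : ∀ (g : G) (τ : V), τ ∈ A → ((g : E) (τ, 0)).1 ∈ A := by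
      rintro g τ hτ
      obtain ⟨k, hk, hk'⟩ := (hA τ).1 hτ
      obtain ⟨n, hn, hs⟩ := hdec g
      have hsK : n⁻¹ * g ∈ K := hle hs
      refine (hA _).2 ⟨(n⁻¹ * g) * k * (n⁻¹ * g)⁻¹, K.mul_mem (K.mul_mem hsK hk) (K.inv_mem hsK),
        fun u => ?_⟩
      -- let `w` be the preimage of `u` under `n⁻¹ g`
      obtain ⟨w, hw⟩ : ∃ w : V, ((n⁻¹ * g : G) : E) (w, v) = (u, v) := by
        refine ⟨((((n⁻¹ * g)⁻¹ : G) : E) (u, v)).1, ?_⟩
        have h1 : (((n⁻¹ * g)⁻¹ : G) : E) (u, v) = (((((n⁻¹ * g)⁻¹ : G) : E) (u, v)).1, v) :=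
          Prod.ext rfl (fibre _ _)
        rw [← h1]
        rw [← LinearEquiv.mul_apply, ← Subgroup.coe_mul, mul_inv_cancel]
        rfl
      have hw' : (((n⁻¹ * g)⁻¹ : G) : E) (u, v) = (w, v) := by
        rw [← hw, ← LinearEquiv.mul_apply, ← Subgroup.coe_mul, inv_mul_cancel]
        rfl
      rw [Subgroup.coe_mul, Subgroup.coe_mul, LinearEquiv.mul_apply, LinearEquiv.mul_apply, hw',
        hk']
      have h2 : (((n⁻¹ * g : G) : E) (w + τ, v)).1 = u + (((n⁻¹ * g : G) : E) (τ, 0)).1 := by
        rw [affine, hw]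
      have h3 : (((n⁻¹ * g : G) : E) (τ, 0)).1 = ((g : E) (τ, 0)).1 := by
        -- the linear part of `n` is trivial
        have h4 : ∀ σ : V, ((n : E) (σ, 0)).1 = σ := by
          intro σ
          have h5 := affine n 0 σ v
          rw [hn, hn, zero_add, zero_add] at h5
          simp only at h5
          rw [add_comm] at h5
          exact (add_left_cancel h5).symm
        have h6 : (g : E) (τ, 0) = (n : E) (((n⁻¹ * g : G) : E) (τ, 0)) := by
          rw [← LinearEquiv.mul_apply, ← Subgroup.coe_mul, mul_inv_cancel_left]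
        have h7 : ((n⁻¹ * g : G) : E) (τ, 0) = ((((n⁻¹ * g : G) : E) (τ, 0)).1, 0) :=
          Prod.ext rfl (fibre _ _)
        rw [h6, h7, h4]
      ext1
      · simp only
        rw [h2, h3]
      · exact fibre _ _
    -- a nonzero element
    obtain ⟨k, hkK, hkS⟩ := SetLike.exists_of_lt hK
    obtain ⟨n, hn, hs⟩ := hdec k
    have hnK : n ∈ K := by
      have h1 : n = k * (n⁻¹ * k)⁻¹ := by group
      rw [h1]
      exact K.mul_mem hkK (K.inv_mem (hle hs))
    have hne : ((k : E) (0, v)).1 ≠ 0 := by
      intro h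
      apply hkS
      rw [mem_St]
      exact Prod.ext h (fibre k _)
    have hmem : ((k : E) (0, v)).1 ∈ A := (hA _).2 ⟨n, hnK, hn⟩
    have hall : ∀ σ : V, σ ∈ A := by
      refine irreducible A ?_ ?_ ?_ hmem hne
      · intro τ hτ
        have := hconj ⟨x, x_mem⟩ τ hτ
        simpa [x_apply'] using this
      · intro τ hτ
        have := hconj ⟨y, y_mem⟩ τ hτ
        simpa [y_apply'] using this
      · intro τ hτ
        have := hconj ⟨y, y_mem⟩⁻¹ τ hτ
        simpa [y_inv_apply'] using this
    rw [eq_top_iff]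
    intro g _
    obtain ⟨m, hm, hs⟩ := hdec g
    obtain ⟨n, hnK, hn⟩ := (hA _).1 (hall ((g : E) (0, v)).1)
    have h1 : n⁻¹ * g ∈ St i j := by
      rw [mem_St, Subgroup.coe_mul, LinearEquiv.mul_apply]
      have h1 : (g : E) (0, v) = (((g : E) (0, v)).1, v) := Prod.ext rfl (fibre g _)
      have h2 := hn 0
      rw [zero_add] at h2
      rw [← hv, h1, ← h2]
      exact LinearEquiv.symm_apply_apply (n : E) _
    have h2 : g = n * (n⁻¹ * g) := by group
    rw [h2]
    exact K.mul_mem hnK (hle h1)

/-- The stabiliser of `(0, e i - e j)` has infinite index. -/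
theorem St_index {i j : ℕ} (hij : i < j) : (St i j).index = 0 := by
  by_contra h
  have hfin : (St i j).FiniteIndex := ⟨h⟩
  have : Finite (G ⧸ St i j) := inferInstance
  choose g hg using fun u : V => translations hij u
  have hinj : Function.Injective (fun n : ℤ =>
      (QuotientGroup.mk (⟨g (Finsupp.single n 1), (hg _).1⟩ : G) : G ⧸ St i j)) := by
    intro m n hmn
    simp only at hmn
    rw [QuotientGroup.eq] at hmn
    rw [mem_St, Subgroup.coe_mul, LinearEquiv.mul_apply] at hmn
    have h1 := (hg (Finsupp.single n 1)).2 0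
    have h2 := (hg (Finsupp.single m 1)).2 0
    rw [zero_add] at h1 h2
    simp only [Subgroup.coe_inv] at hmn
    rw [h1] at hmn
    have h3 : g (Finsupp.single m 1) ((g (Finsupp.single m 1))⁻¹ (Finsupp.single n 1, e i - e j)) =
        g (Finsupp.single m 1) (0, e i - e j) := congrArg _ hmn
    rw [h2] at h3
    have h4 : g (Finsupp.single m 1) ((g (Finsupp.single m 1))⁻¹ (Finsupp.single n 1, e i - e j)) =
        (Finsupp.single n 1, e i - e j) := LinearEquiv.apply_symm_apply _ _
    rw [h4] at h3
    have h5 := congrArg Prod.fst h3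
    simp only at h5
    by_contra hne
    have h6 := DFunLike.congr_fun h5 n
    rw [Finsupp.single_eq_same, Finsupp.single_apply, if_neg hne] at h6
    exact absurd h6 (by decide)
  exact not_injective_infinite_finite _ hinj

/-- Each finite subset of `G` lies in the union of the conjugates of one of the stabilisers. -/
theorem finite_subset_St (S : Set G) (hS : S.Finite) : ∃ i j : ℕ, i < j ∧
    ∀ s ∈ S, ∃ g : G, g⁻¹ * s * g ∈ St i j := by
  classical
  have := hS.to_subtype
  choose Q hQ c hc using fun s : S => coloring (good_of_mem s.1.2)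
  have := hQ
  obtain ⟨i, j, hij, hcij⟩ := Finite.exists_ne_map_eq_of_infinite (fun n : ℕ => fun s : S => c s n)
  obtain ⟨i, j, hij, hcij⟩ : ∃ i j, i < j ∧ (fun s : S => c s i) = (fun s : S => c s j) := by
    rcases lt_or_gt_of_ne hij with h | h
    · exact ⟨i, j, h, hcij⟩
    · exact ⟨j, i, h, hcij.symm⟩
  refine ⟨i, j, hij, fun s hs => ?_⟩
  obtain ⟨u, hu⟩ := hc ⟨s, hs⟩ i j hij.ne (congrFun hcij ⟨s, hs⟩)
  obtain ⟨g, hg, hg'⟩ := transitive hij u
  refine ⟨⟨g, hg⟩, ?_⟩
  rw [mem_St]
  simp only [Subgroup.coe_mul, Subgroup.coe_inv]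
  rw [LinearEquiv.mul_apply, LinearEquiv.mul_apply, hg', hu, ← hg']
  exact LinearEquiv.symm_apply_apply g _

/-- The derived series of `G`. -/
theorem derived : (∀ g ∈ derivedSeries G 2, g ^ 3 = 1) ∧ derivedSeries G 3 = ⊥ := by
  have h0 : (derivedSeries G 0).map G.subtype ≤ T0 := by
    rintro _ ⟨g, -, rfl⟩
    exact G_le_T0 g.2
  have h1 : (derivedSeries G 1).map G.subtype ≤ T1 := by
    rw [derivedSeries_succ, Subgroup.map_commutator]
    exact (Subgroup.commutator_mono h0 h0).trans comm01
  have h2 : (derivedSeries G 2).map G.subtype ≤ T2 := by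
    rw [derivedSeries_succ, Subgroup.map_commutator]
    exact (Subgroup.commutator_mono h1 h1).trans comm12
  have h3 : (derivedSeries G 3).map G.subtype ≤ ⊥ := by
    rw [derivedSeries_succ, Subgroup.map_commutator]
    exact (Subgroup.commutator_mono h2 h2).trans comm23
  refine ⟨fun g hg => ?_, ?_⟩
  · have hg' : (g : E) ∈ T2 := h2 ⟨g, hg, rfl⟩
    apply Subtype.ext
    rw [Subgroup.coe_pow, Subgroup.coe_one]
    ext1 ⟨u, v⟩
    rw [pow_succ, pow_two, LinearEquiv.mul_apply, LinearEquiv.mul_apply, T2_apply hg' u v,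
      T2_apply hg' (u + _) v, T2_apply hg' (u + _ + _) v]
    have h4 : ∀ w : V, w + w + w = 0 := by
      intro w
      ext q
      simp only [Finsupp.add_apply, Finsupp.zero_apply]
      generalize w q = c
      revert c
      decide
    have h5 : u + ((g : E) (0, v)).1 + ((g : E) (0, v)).1 + ((g : E) (0, v)).1 = u := by
      have := h4 ((g : E) (0, v)).1
      rw [add_assoc, add_assoc, ← add_assoc (((g : E) (0, v)).1), this, add_zero]
    rw [h5]
    rfl
  · rw [eq_bot_iff]
    intro g hg
    have := h3 ⟨g, hg, rfl⟩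
    rw [Subgroup.mem_bot] at this ⊢
    exact Subtype.ext this

/-- `G` is generated by two elements, one of them of order two. -/
theorem two_gen : ∃ a b : G, a ^ 2 = 1 ∧ Subgroup.closure {a, b} = (⊤ : Subgroup G) := by
  refine ⟨⟨x, x_mem⟩, ⟨y, y_mem⟩, ?_, ?_⟩
  · apply Subtype.ext
    rw [Subgroup.coe_pow, Subgroup.coe_one, pow_two]
    ext1 w
    rw [LinearEquiv.mul_apply, x_apply', x_apply']
    simp [aL_aL]
  · have h1 : Subgroup.closure ({⟨x, x_mem⟩, ⟨y, y_mem⟩} : Set G) =
        Subgroup.closure ((↑) ⁻¹' ({x, y} : Set E) : Set G) := by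
      congr 1
      ext g
      simp only [Set.mem_insert_iff, Set.mem_singleton_iff, Set.mem_preimage, Subtype.ext_iff]
    rw [h1]
    exact Subgroup.closure_closure_coe_preimage

end Pool.Agent.Work.MP_98fcd2_al
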